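import Pool.Agent.U73.LS.Stm2

/-!
Project LS (MP_d8bd92_nt), package FACT (helper913): the exponents of `|Δ| / N` are local conditions.
-/

set_option autoImplicit false

namespace Pool.Agent.U913.LS

open Pool.Agent.U73.LS

theorem ee_dvd {p : ℕ} (hp : p.Prime) (k : ℕ) (D : ℤ) :
    (p : ℤ) ^ (k + ee p) ∣ 1728 * D ↔ (p : ℤ) ^ k ∣ D := by
  unfold ee
  split_ifs with h2 h3
  · subst h2
    have e1 : ((2 : ℕ) : ℤ) ^ (k + 6) = ((2 : ℕ) : ℤ) ^ 6 * ((2 : ℕ) : ℤ) ^ k := by
      rw [pow_add, mul_comm]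
    have e2 : 1728 * D = ((2 : ℕ) : ℤ) ^ 6 * (27 * D) := by push_cast; ring
    rw [e1, e2, mul_dvd_mul_iff_left (by norm_num)]
    have hc : IsCoprime (((2 : ℕ) : ℤ) ^ k) 27 := by
      apply IsCoprime.pow_left
      rw [Int.isCoprime_iff_gcd_eq_one]; norm_num
    exact ⟨fun h => hc.dvd_of_dvd_mul_left h, fun h => Dvd.dvd.mul_left h _⟩
  · subst h3
    have e1 : ((3 : ℕ) : ℤ) ^ (k + 3) = ((3 : ℕ) : ℤ) ^ 3 * ((3 : ℕ) : ℤ) ^ k := by
      rw [pow_add, mul_comm]
    have e2 : 1728 * D = ((3 : ℕ) : ℤ) ^ 3 * (64 * D) := by push_cast; ring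
    rw [e1, e2, mul_dvd_mul_iff_left (by norm_num)]
    have hc : IsCoprime (((3 : ℕ) : ℤ) ^ k) 64 := by
      apply IsCoprime.pow_left
      rw [Int.isCoprime_iff_gcd_eq_one]; norm_num
    exact ⟨fun h => hc.dvd_of_dvd_mul_left h, fun h => Dvd.dvd.mul_left h _⟩
  · rw [add_zero]
    have hc : IsCoprime ((p : ℤ) ^ k) 1728 := by
      apply IsCoprime.pow_left
      have h1 : Nat.Coprime p 1728 := by
        rw [hp.coprime_iff_not_dvd]
        intro h
        have h12 : p ∣ 2 ^ 6 * 3 ^ 3 := by norm_num; exact h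
        rcases (hp.dvd_mul).1 h12 with h13 | h13
        · exact h2 ((Nat.prime_dvd_prime_iff_eq hp Nat.prime_two).1 (hp.dvd_of_dvd_pow h13))
        · exact h3 ((Nat.prime_dvd_prime_iff_eq hp Nat.prime_three).1 (hp.dvd_of_dvd_pow h13))
      exact_mod_cast Nat.isCoprime_iff_coprime.2 h1
    exact ⟨fun h => hc.dvd_of_dvd_mul_left h, fun h => Dvd.dvd.mul_left h _⟩

theorem part1 (a b : ℤ) (h : Sm a b) : 1728 * Dz a b = a ^ 3 - b ^ 2 ∧ Dz a b ≠ 0 ∧
    (Dz a b).natAbs = rs a b * Nz a b ∧ 0 < rs a b := by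
  have h2 : K2 a b := by have := sm_sp h Nat.prime_two; unfold Sp at this; simpa using this
  have h3 : K3 a b := by have := sm_sp h Nat.prime_three; unfold Sp at this; simpa using this
  have e1 : 1728 * Dz a b = a ^ 3 - b ^ 2 := Int.mul_ediv_cancel' (rel1728 h2 h3)
  have hne : a ^ 3 ≠ b ^ 2 := ((sm_iff a b).1 h).1
  have e2 : Dz a b ≠ 0 := by
    intro h0
    rw [h0, mul_zero] at e1
    exact hne (sub_eq_zero.1 e1.symm)
  have e3 : (Dz a b).natAbs = rs a b * Nz a b := by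
    unfold rs
    rw [Nat.div_mul_cancel]
    exact Nat.prod_primeFactors_dvd _
  refine ⟨e1, e2, e3, ?_⟩
  rcases Nat.eq_zero_or_pos (rs a b) with h0 | h0
  · rw [h0, zero_mul] at e3
    exact absurd (Int.natAbs_eq_zero.1 e3) e2
  · exact h0

theorem nz_fact {a b : ℤ} (hD : Dz a b ≠ 0) {p : ℕ} (hp : p.Prime) :
    (Nz a b).factorization p = if p ∣ (Dz a b).natAbs then 1 else 0 := by
  unfold Nz
  rw [Nat.factorization_prod_apply]
  · have h1 : ∀ q ∈ (Dz a b).natAbs.primeFactors, q.factorization p = if q = p then 1 else 0 := by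
      intro q hq
      have hqp := Nat.prime_of_mem_primeFactors hq
      rw [hqp.factorization, Finsupp.single_apply]
    rw [Finset.sum_congr rfl h1, Finset.sum_ite_eq']
    have hD0 : (Dz a b).natAbs ≠ 0 := Int.natAbs_ne_zero.2 hD
    by_cases h : p ∣ (Dz a b).natAbs
    · rw [if_pos (Nat.mem_primeFactors.2 ⟨hp, h, hD0⟩), if_pos h]
    · rw [if_neg (fun h' => h (Nat.mem_primeFactors.1 h').2.1), if_neg h]
  · intro q hq
    exact (Nat.prime_of_mem_primeFactors hq).ne_zero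

theorem t_FACT : S_FACT := by
  refine ⟨part1, ?_⟩
  intro a b h p hp g
  obtain ⟨e1, e2, e3, e4⟩ := part1 a b h
  have hD0 : (Dz a b).natAbs ≠ 0 := Int.natAbs_ne_zero.2 e2
  have hN0 : Nz a b ≠ 0 := by
    intro h0
    rw [h0, mul_zero] at e3
    exact hD0 e3
  have hf : (Dz a b).natAbs.factorization p =
      (rs a b).factorization p + (if p ∣ (Dz a b).natAbs then 1 else 0) := by
    conv_lhs => rw [e3]
    rw [Nat.factorization_mul e4.ne' hN0, Finsupp.add_apply, nz_fact e2 hp]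
  have hk : ∀ k : ℕ, (p : ℤ) ^ k ∣ Dz a b ↔ k ≤ (Dz a b).natAbs.factorization p := by
    intro k
    rw [← hp.pow_dvd_iff_le_factorization hD0, ← Int.natCast_dvd]
    push_cast
    rfl
  unfold G
  rw [hp.pow_dvd_iff_le_factorization e4.ne', ← e1, ee_dvd hp, hk]
  have hsp := sm_sp h hp
  constructor
  · intro hg
    refine ⟨hsp, ?_⟩
    rcases Nat.eq_zero_or_pos g with h0 | h0
    · exact Or.inl h0
    · right
      have hpd : p ∣ (Dz a b).natAbs := by
        by_contra hn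
        have := Nat.factorization_eq_zero_of_not_dvd hn
        rw [if_neg hn] at hf
        omega
      rw [hf, if_pos hpd]
      omega
  · rintro ⟨-, hg⟩
    rcases hg with hg | hg
    · rw [hg]; exact Nat.zero_le _
    · rw [hf] at hg
      split_ifs at hg <;> omega

end Pool.Agent.U913.LS
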